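import Mathlib

/-! # The Cantor dust is removable for convexity -/

set_option autoImplicit false

namespace Pool.Agent.Results.MP_95ad2c_an.CantorDustRemovable

open Set Filter Topology MeasureTheory

/-- `f` is locally convex on `U`: every point of `U` has an open convex neighbourhood contained in
`U` on which `f` is convex -/
def LocallyConvexOn (f : ℝ × ℝ → ℝ) (U : Set (ℝ × ℝ)) : Prop :=
  ∀ z ∈ U, ∃ V ⊆ U, IsOpen V ∧ Convex ℝ V ∧ z ∈ V ∧ ConvexOn ℝ V f

/-- `A` is `c`-removable: every continuous function on the plane that is locally convex outside `A`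
is convex -/
def CRemovable (A : Set (ℝ × ℝ)) : Prop :=
  ∀ f : ℝ × ℝ → ℝ, Continuous f → LocallyConvexOn f Aᶜ → ConvexOn ℝ univ f

/-! ### One variable -/

/-- a violated chord inequality produces interior maxima of a strictly convex perturbation -/
theorem exists_max (a b : ℝ) (hab : a < b) (g : ℝ → ℝ) (hg : ContinuousOn g (Icc a b)) (t₀ : ℝ)
    (ht₀ : t₀ ∈ Ioo a b) (hviol : (b - t₀) * g a + (t₀ - a) * g b < (b - a) * g t₀) :
    ∃ η δ r : ℝ, 0 < η ∧ 0 < δ ∧ ∀ p, |p| ≤ δ → ∃ t ∈ Ioo a b, ∀ u ∈ Icc a b,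
      (b - a) * g u + r * u + η * u ^ 2 - p * u ≤ (b - a) * g t + r * t + η * t ^ 2 - p * t := by
  obtain ⟨h1, h2⟩ := ht₀
  set D : ℝ := (b - a) * g t₀ - ((b - t₀) * g a + (t₀ - a) * g b) with hD
  have hD0 : 0 < D := by linarith
  have hP : 0 < (t₀ - a) * (b - t₀) := mul_pos (by linarith) (by linarith)
  set η : ℝ := D / (2 * ((t₀ - a) * (b - t₀))) with hη
  have hη0 : 0 < η := by positivity
  have hηP : η * ((t₀ - a) * (b - t₀)) = D / 2 := by rw [hη]; field_simp
  have hba : 0 < b - a := by linarith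
  set δ : ℝ := D / (8 * (b - a)) with hδ
  have hδ0 : 0 < δ := by positivity
  have hδb : δ * (b - a) = D / 8 := by rw [hδ]; field_simp
  refine ⟨η, δ, g a - g b - η * (a + b), hη0, hδ0, fun p hp => ?_⟩
  rw [abs_le] at hp
  set F : ℝ → ℝ := fun u => (b - a) * g u + (g a - g b - η * (a + b)) * u + η * u ^ 2 - p * u with hF
  have hFc : ContinuousOn F (Icc a b) := by
    apply ContinuousOn.sub _ (by fun_prop)
    apply ContinuousOn.add _ (by fun_prop)
    exact (continuousOn_const.mul hg).add (by fun_prop)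
  obtain ⟨t, ht, htmax⟩ := isCompact_Icc.exists_isMaxOn (nonempty_Icc.2 hab.le) hFc
  have hmax : ∀ u ∈ Icc a b, F u ≤ F t := fun u hu => htmax hu
  have h0 := hmax t₀ ⟨h1.le, h2.le⟩
  have e1 : F t₀ - F a = D / 2 - p * (t₀ - a) := by
    have : F t₀ - F a = D - η * ((t₀ - a) * (b - t₀)) - p * (t₀ - a) := by
      simp only [hF, hD]; ring
    rw [this, hηP]; ring
  have e2 : F b - F a = - p * (b - a) := by simp only [hF]; ring
  have e3 : p * (t₀ - a) ≤ D / 8 := by
    calc p * (t₀ - a) ≤ δ * (t₀ - a) := mul_le_mul_of_nonneg_right hp.2 (by linarith)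
      _ ≤ δ * (b - a) := mul_le_mul_of_nonneg_left (by linarith) hδ0.le
      _ = D / 8 := hδb
  have e4 : - p * (b - a) ≤ D / 8 := by
    calc - p * (b - a) ≤ δ * (b - a) := mul_le_mul_of_nonneg_right (by linarith) hba.le
      _ = D / 8 := hδb
  have hta : t ≠ a := by
    intro h; rw [h] at h0; linarith
  have htb : t ≠ b := by
    intro h; rw [h] at h0; linarith
  exact ⟨t, ⟨lt_of_le_of_ne ht.1 (Ne.symm hta), lt_of_le_of_ne ht.2 htb⟩, hmax⟩

/-- there is no interior maximum at a point of local convexity -/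
theorem no_max (a b : ℝ) (_hab : a < b) (g : ℝ → ℝ) (η r p t ε : ℝ) (hη : 0 < η) (hε : 0 < ε)
    (ht : t ∈ Ioo a b)
    (hmax : ∀ u ∈ Icc a b,
      (b - a) * g u + r * u + η * u ^ 2 - p * u ≤ (b - a) * g t + r * t + η * t ^ 2 - p * t)
    (hconv : ConvexOn ℝ (Ioo (t - ε) (t + ε)) g) : False := by
  obtain ⟨h1, h2⟩ := ht
  set s : ℝ := min ε (min (t - a) (b - t)) / 2 with hs
  have hm : 0 < min ε (min (t - a) (b - t)) := lt_min hε (lt_min (by linarith) (by linarith))
  have hs0 : 0 < s := by positivity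
  have hs1 : s < ε := by
    have := min_le_left ε (min (t - a) (b - t)); linarith
  have hs2 : s < t - a := by
    have := (min_le_right ε (min (t - a) (b - t))).trans (min_le_left _ _); linarith
  have hs3 : s < b - t := by
    have := (min_le_right ε (min (t - a) (b - t))).trans (min_le_right _ _); linarith
  have m1 := hmax (t + s) ⟨by linarith, by linarith⟩
  have m2 := hmax (t - s) ⟨by linarith, by linarith⟩
  have hc := hconv.2 (show t + s ∈ Ioo (t - ε) (t + ε) from ⟨by linarith, by linarith⟩)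
    (show t - s ∈ Ioo (t - ε) (t + ε) from ⟨by linarith, by linarith⟩)
    (show (0 : ℝ) ≤ 1 / 2 by norm_num) (show (0 : ℝ) ≤ 1 / 2 by norm_num) (by norm_num)
  simp only [smul_eq_mul] at hc
  have e1 : 1 / 2 * (t + s) + 1 / 2 * (t - s) = t := by ring
  rw [e1] at hc
  have hc' : (b - a) * g t ≤ (b - a) * (1 / 2 * g (t + s) + 1 / 2 * g (t - s)) :=
    mul_le_mul_of_nonneg_left hc (by linarith)
  have hs' : 0 < η * s ^ 2 := by positivity
  nlinarith

theorem chord_of_locally (a b : ℝ) (hab : a < b) (g : ℝ → ℝ) (hg : ContinuousOn g (Icc a b))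
    (hloc : ∀ t ∈ Ioo a b, ∃ ε > 0, ConvexOn ℝ (Ioo (t - ε) (t + ε)) g) (t₀ : ℝ)
    (ht₀ : t₀ ∈ Ioo a b) : (b - a) * g t₀ ≤ (b - t₀) * g a + (t₀ - a) * g b := by
  by_contra hcon
  push Not at hcon
  obtain ⟨η, δ, r, hη, hδ, h⟩ := exists_max a b hab g hg t₀ ht₀ hcon
  obtain ⟨t, ht, hmax⟩ := h 0 (by rw [abs_zero]; exact hδ.le)
  obtain ⟨ε, hε, hconv⟩ := hloc t ht
  exact no_max a b hab g η r 0 t ε hη hε ht hmax hconv

/-- the quadratic lower bound at an interior maximum, from semiconvexity -/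
theorem lower (a b : ℝ) (G : ℝ → ℝ) (K p t : ℝ) (ht : t ∈ Ioo a b)
    (hmax : ∀ u ∈ Icc a b, G u - p * u ≤ G t - p * t)
    (hconv : ConvexOn ℝ (Icc a b) (fun u => G u + K * u ^ 2)) (u : ℝ) (hu : u ∈ Icc a b) :
    G t + p * (u - t) - K * (u - t) ^ 2 ≤ G u := by
  obtain ⟨h1, h2⟩ := ht
  have key : ∀ᶠ l : ℝ in 𝓝[>] 0, G t + p * (u - t) - K * (u - t) ^ 2 - l * (K * (u - t) ^ 2) ≤ G u := by
    have hv : Tendsto (fun l : ℝ => t - l * (u - t)) (𝓝[>] 0) (𝓝 t) := by
      have : Tendsto (fun l : ℝ => t - l * (u - t)) (𝓝 0) (𝓝 (t - 0 * (u - t))) :=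
        (continuous_const.sub (continuous_id.mul continuous_const)).tendsto 0
      rw [zero_mul, sub_zero] at this
      exact this.mono_left nhdsWithin_le_nhds
    filter_upwards [hv.eventually (Ioo_mem_nhds h1 h2), self_mem_nhdsWithin] with l hl hl0
    rw [mem_Ioi] at hl0
    set v : ℝ := t - l * (u - t) with hvd
    have hc := hconv.2 hu (show v ∈ Icc a b from ⟨hl.1.le, hl.2.le⟩)
      (show (0 : ℝ) ≤ l / (1 + l) by positivity) (show (0 : ℝ) ≤ 1 / (1 + l) by positivity)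
      (by field_simp; ring)
    simp only [smul_eq_mul] at hc
    have e1 : l / (1 + l) * u + 1 / (1 + l) * v = t := by rw [hvd]; field_simp; ring
    rw [e1] at hc
    have hl1 : 0 < 1 + l := by linarith
    have hc' : (1 + l) * (G t + K * t ^ 2) ≤ l * (G u + K * u ^ 2) + (G v + K * v ^ 2) := by
      calc (1 + l) * (G t + K * t ^ 2) ≤ (1 + l) * (l / (1 + l) * (G u + K * u ^ 2) +
            1 / (1 + l) * (G v + K * v ^ 2)) := mul_le_mul_of_nonneg_left hc hl1.le
        _ = _ := by field_simp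
    have hm := hmax v ⟨hl.1.le, hl.2.le⟩
    have e2 : l * (G t + p * (u - t) - K * (u - t) ^ 2 - l * (K * (u - t) ^ 2)) ≤ l * G u := by
      have e3 : p * v = p * t - l * (p * (u - t)) := by rw [hvd]; ring
      have e4 : K * v ^ 2 = K * t ^ 2 - 2 * l * (K * t * (u - t)) + l ^ 2 * (K * (u - t) ^ 2) := by
        rw [hvd]; ring
      have e5 : K * u ^ 2 = K * t ^ 2 + 2 * (K * t * (u - t)) + K * (u - t) ^ 2 := by ring
      nlinarith
    exact le_of_mul_le_mul_left e2 hl0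
  have hlim : Tendsto (fun l : ℝ => G t + p * (u - t) - K * (u - t) ^ 2 - l * (K * (u - t) ^ 2))
      (𝓝[>] 0) (𝓝 (G t + p * (u - t) - K * (u - t) ^ 2)) := by
    have : Tendsto (fun l : ℝ => G t + p * (u - t) - K * (u - t) ^ 2 - l * (K * (u - t) ^ 2))
        (𝓝 0) (𝓝 (G t + p * (u - t) - K * (u - t) ^ 2 - 0 * (K * (u - t) ^ 2))) :=
      (continuous_const.sub (continuous_id.mul continuous_const)).tendsto 0
    rw [zero_mul, sub_zero] at this
    exact this.mono_left nhdsWithin_le_nhds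
  exact le_of_tendsto hlim key

/-- A semiconvex function that is locally convex off a null set satisfies the chord inequality. -/
theorem chord_of_semiconvex (a b : ℝ) (hab : a < b) (g : ℝ → ℝ) (hg : ContinuousOn g (Icc a b))
    (N : Set ℝ) (hN : volume N = 0) (K : ℝ) (hK : 0 ≤ K)
    (hsc : ConvexOn ℝ (Icc a b) (fun u => g u + K * u ^ 2))
    (hloc : ∀ t ∈ Ioo a b, t ∉ N → ∃ ε > 0, ConvexOn ℝ (Ioo (t - ε) (t + ε)) g) (t₀ : ℝ)
    (ht₀ : t₀ ∈ Ioo a b) : (b - a) * g t₀ ≤ (b - t₀) * g a + (t₀ - a) * g b := by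
  by_contra hcon
  push Not at hcon
  obtain ⟨η, δ, r, hη, hδ, h⟩ := exists_max a b hab g hg t₀ ht₀ hcon
  have hba : 0 < b - a := by linarith
  set G : ℝ → ℝ := fun u => (b - a) * g u + r * u + η * u ^ 2 with hG
  choose! τ hτ hmax using h
  have hmax' : ∀ p, |p| ≤ δ → ∀ u ∈ Icc a b, G u - p * u ≤ G (τ p) - p * τ p := hmax
  -- all the maxima lie in N
  have hτN : ∀ p, |p| ≤ δ → τ p ∈ N := by
    intro p hp
    by_contra hn
    obtain ⟨ε, hε, hconv⟩ := hloc (τ p) (hτ p hp) hn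
    exact no_max a b hab g η r p (τ p) ε hη hε (hτ p hp) (hmax p hp) hconv
  have hGc : ConvexOn ℝ (Icc a b) (fun u => G u + ((b - a) * K) * u ^ 2) := by
    refine ⟨hsc.1, fun x hx y hy α β hα hβ hαβ => ?_⟩
    have h1 := hsc.2 hx hy hα hβ hαβ
    simp only [smul_eq_mul] at h1 ⊢
    have h2 := mul_le_mul_of_nonneg_left h1 hba.le
    have h3 : (α * x + β * y) ^ 2 ≤ α * x ^ 2 + β * y ^ 2 := by
      have hβ' : β = 1 - α := by linarith
      subst hβ'
      nlinarith [mul_nonneg (mul_nonneg hα hβ) (sq_nonneg (x - y))]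
    have h4 := mul_le_mul_of_nonneg_left h3 hη.le
    simp only [hG]
    nlinarith
  have hlow : ∀ p, |p| ≤ δ → ∀ u ∈ Icc a b,
      G (τ p) + p * (u - τ p) - ((b - a) * K) * (u - τ p) ^ 2 ≤ G u := fun p hp u hu =>
    lower a b G ((b - a) * K) p (τ p) (hτ p hp) (hmax' p hp) hGc u hu
  set L : ℝ := 2 * ((b - a) * K) with hL
  have hL0 : 0 ≤ L := by positivity
  have hlip : ∀ p q, |p| ≤ δ → |q| ≤ δ → |p - q| ≤ L * |τ p - τ q| := by
    intro p q hp hq
    have hpI := hτ p hp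
    have hqI := hτ q hq
    rcases eq_or_ne (τ p) (τ q) with heq | hne
    · -- equal points: equal slopes
      have hkey : ∀ u ∈ Icc a b, (p - q) * (u - τ p) ≤ ((b - a) * K) * (u - τ p) ^ 2 := by
        intro u hu
        have h1 := hlow p hp u hu
        have h2 := hmax' q hq u hu
        rw [← heq] at h2
        nlinarith
      have hpq : p - q = 0 := by
        by_contra hne
        set x : ℝ := τ p with hx
        -- test with u = x ± s
        have hm : 0 < min (x - a) (b - x) := lt_min (by linarith [hpI.1]) (by linarith [hpI.2])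
        have hlimp : ∀ s : ℝ, |s| ≤ min (x - a) (b - x) → (p - q) * s ≤ ((b - a) * K) * s ^ 2 := by
          intro s hs
          rw [abs_le] at hs
          have m1 := min_le_left (x - a) (b - x)
          have m2 := min_le_right (x - a) (b - x)
          have := hkey (x + s) ⟨by linarith, by linarith⟩
          rwa [add_sub_cancel_left] at this
        set m : ℝ := min (x - a) (b - x) with hmd
        set C : ℝ := (b - a) * K with hC
        have hC0 : 0 ≤ C := by positivity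
        set s₀ : ℝ := min m (|p - q| / (C + 1)) / 2 with hs₀
        have hpq0 : 0 < |p - q| := abs_pos.2 hne
        have hs₀0 : 0 < s₀ := by
          have : 0 < min m (|p - q| / (C + 1)) := lt_min hm (by positivity)
          positivity
        have hs₀m : s₀ ≤ m := by
          have := min_le_left m (|p - q| / (C + 1)); linarith
        have hs₀C : s₀ * (C + 1) < |p - q| := by
          have h1 := min_le_right m (|p - q| / (C + 1))
          have h2 : s₀ < |p - q| / (C + 1) := by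
            have : 0 < min m (|p - q| / (C + 1)) := lt_min hm (by positivity)
            linarith
          rwa [lt_div_iff₀ (by positivity)] at h2
        have h3 : |p - q| * s₀ ≤ C * s₀ ^ 2 := by
          rcases abs_cases (p - q) with ⟨h, _⟩ | ⟨h, _⟩
          · rw [h]; exact hlimp s₀ (by rw [abs_of_pos hs₀0]; exact hs₀m)
          · have := hlimp (-s₀) (by rw [abs_neg, abs_of_pos hs₀0]; exact hs₀m)
            rw [h]; nlinarith
        have h4 : |p - q| ≤ C * s₀ := by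
          have : s₀ * |p - q| ≤ s₀ * (C * s₀) := by nlinarith
          exact le_of_mul_le_mul_left this hs₀0
        nlinarith
      rw [hpq, heq]
      simp
    · have h1 := hlow p hp (τ q) ⟨hqI.1.le, hqI.2.le⟩
      have h2 := hlow q hq (τ p) ⟨hpI.1.le, hpI.2.le⟩
      have h3 := hmax' p hp (τ q) ⟨hqI.1.le, hqI.2.le⟩
      have h4 := hmax' q hq (τ p) ⟨hpI.1.le, hpI.2.le⟩
      have h5 : (p - q) * (τ q - τ p) ≤ L * (τ q - τ p) ^ 2 := by rw [hL]; nlinarith
      have h6 : 0 ≤ (p - q) * (τ q - τ p) := by nlinarith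
      have h7 : |p - q| * |τ q - τ p| ≤ L * |τ q - τ p| * |τ q - τ p| := by
        rw [← abs_mul, abs_of_nonneg h6, mul_assoc, abs_mul_abs_self]
        nlinarith
      have h8 : 0 < |τ q - τ p| := abs_pos.2 (sub_ne_zero.2 hne.symm)
      have h9 := le_of_mul_le_mul_right h7 h8
      rwa [abs_sub_comm (τ p) (τ q)]
  -- the image of the null set would have positive measure
  set I : Set ℝ := Icc (-δ) δ with hI
  have hIabs : ∀ p ∈ I, |p| ≤ δ := fun p hp => abs_le.2 hp
  have hinj : InjOn τ I := by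
    intro p hp q hq hpq
    have := hlip p q (hIabs p hp) (hIabs q hq)
    rw [hpq, sub_self, abs_zero, mul_zero] at this
    exact sub_eq_zero.1 (abs_nonpos_iff.1 this)
  set φ : ℝ → ℝ := Function.invFunOn τ I with hφ
  have hφτ : ∀ p ∈ I, φ (τ p) = p := fun p hp => hinj.leftInvOn_invFunOn hp
  have hφL : LipschitzOnWith (Real.toNNReal L) φ (τ '' I) := by
    rw [lipschitzOnWith_iff_dist_le_mul]
    rintro _ ⟨p, hp, rfl⟩ _ ⟨q, hq, rfl⟩
    rw [hφτ p hp, hφτ q hq, Real.dist_eq, Real.dist_eq, Real.coe_toNNReal L hL0]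
    exact hlip p q (hIabs p hp) (hIabs q hq)
  have himg : φ '' (τ '' I) = I := by
    rw [← image_comp]
    ext x
    constructor
    · rintro ⟨p, hp, rfl⟩
      show φ (τ p) ∈ I
      rw [hφτ p hp]; exact hp
    · intro hx
      exact ⟨x, hx, hφτ x hx⟩
  have hH := hφL.hausdorffMeasure_image_le (d := 1) (by norm_num)
  rw [himg, hausdorffMeasure_real] at hH
  have h0 : volume (τ '' I) = 0 := by
    apply measure_mono_null _ hN
    rintro _ ⟨p, hp, rfl⟩
    exact hτN p (hIabs p hp)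
  rw [h0, mul_zero, hI, Real.volume_Icc] at hH
  have h1 : ENNReal.ofReal (δ - -δ) = 0 := le_antisymm hH bot_le
  rw [ENNReal.ofReal_eq_zero] at h1
  linarith

/-! ### Two variables -/

/-- a point of the line through `z` and `w` -/
theorem conv_segment (f : ℝ × ℝ → ℝ) (hf : Continuous f) (U : Set (ℝ × ℝ))
    (hU : LocallyConvexOn f U) (z w : ℝ × ℝ) (hseg : ∀ t ∈ Icc (0 : ℝ) 1, z + t • (w - z) ∈ U)
    (t : ℝ) (ht : t ∈ Icc (0 : ℝ) 1) : f (z + t • (w - z)) ≤ (1 - t) * f z + t * f w := by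
  set g : ℝ → ℝ := fun t => f (z + t • (w - z)) with hg
  have hlin : Continuous (fun t : ℝ => z + t • (w - z)) := by fun_prop
  have hgc : Continuous g := hf.comp hlin
  have hloc : ∀ s ∈ Ioo (0 : ℝ) 1, ∃ ε > 0, ConvexOn ℝ (Ioo (s - ε) (s + ε)) g := by
    intro s hs
    obtain ⟨V, _, hVo, _, hsV, hVconv⟩ := hU _ (hseg s ⟨hs.1.le, hs.2.le⟩)
    have hpre : (fun t : ℝ => z + t • (w - z)) ⁻¹' V ∈ 𝓝 s := (hVo.preimage hlin).mem_nhds hsV
    obtain ⟨ε, hε, hball⟩ := Metric.mem_nhds_iff.1 hpre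
    rw [Real.ball_eq_Ioo] at hball
    refine ⟨ε, hε, convex_Ioo _ _, fun x hx y hy α β hα hβ hαβ => ?_⟩
    have h1 := hVconv.2 (hball hx) (hball hy) hα hβ hαβ
    have e1 : α • (z + x • (w - z)) + β • (z + y • (w - z)) = z + (α • x + β • y) • (w - z) := by
      have hβ' : β = 1 - α := by linarith
      subst hβ'
      simp only [smul_eq_mul]
      module
    have h2 : f (α • (z + x • (w - z)) + β • (z + y • (w - z))) ≤
        α • f (z + x • (w - z)) + β • f (z + y • (w - z)) := h1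
    rw [e1] at h2
    exact h2
  have g0 : g 0 = f z := by simp [hg]
  have g1 : g 1 = f w := by simp [hg]
  show g t ≤ _
  rcases eq_or_lt_of_le ht.1 with h0 | h0
  · rw [← h0, g0]; simp
  rcases eq_or_lt_of_le ht.2 with h1 | h1
  · rw [h1, g1]; simp
  have h := chord_of_locally 0 1 one_pos g hgc.continuousOn hloc t ⟨h0, h1⟩
  rw [g0, g1] at h
  linarith

/-- a locally convex function is convex on a convex set -/
theorem convexOn_of_locally (f : ℝ × ℝ → ℝ) (hf : Continuous f) (U S : Set (ℝ × ℝ))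
    (hU : LocallyConvexOn f U) (hS : Convex ℝ S) (hSU : S ⊆ U) : ConvexOn ℝ S f := by
  refine ⟨hS, fun z hz w hw α β hα hβ hαβ => ?_⟩
  have hα' : α = 1 - β := by linarith
  subst hα'
  have h := conv_segment f hf U hU z w (fun t ht => hSU ?_) β ⟨hβ, by linarith⟩
  · have e : (1 - β) • z + β • w = z + β • (w - z) := by module
    rw [e]
    exact h
  · have e : z + t • (w - z) = (1 - t) • z + t • w := by module
    rw [e]
    exact hS hz hw (by linarith [ht.2]) ht.1 (by ring)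

/-- convexity along horizontal lines -/
theorem horizontal (f : ℝ × ℝ → ℝ) (hf : Continuous f) (A : Set (ℝ × ℝ)) (N₁ N₂ : Set ℝ)
    (hA : A ⊆ N₁ ×ˢ N₂) (hN₂ : Dense N₂ᶜ) (hloc : LocallyConvexOn f Aᶜ) (y x₁ x₂ α β : ℝ)
    (hα : 0 ≤ α) (hβ : 0 ≤ β) (hαβ : α + β = 1) :
    f (α * x₁ + β * x₂, y) ≤ α * f (x₁, y) + β * f (x₂, y) := by
  -- the set of good heights is closed and contains a dense set
  have hcl : IsClosed {y : ℝ | f (α * x₁ + β * x₂, y) ≤ α * f (x₁, y) + β * f (x₂, y)} := by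
    apply isClosed_le
    · exact hf.comp (by fun_prop)
    · exact (continuous_const.mul (hf.comp (by fun_prop))).add
        (continuous_const.mul (hf.comp (by fun_prop)))
  have hsub : N₂ᶜ ⊆ {y : ℝ | f (α * x₁ + β * x₂, y) ≤ α * f (x₁, y) + β * f (x₂, y)} := by
    intro y hy
    have hS : Convex ℝ ((univ : Set ℝ) ×ˢ ({y} : Set ℝ)) := convex_univ.prod (convex_singleton y)
    have hSU : (univ : Set ℝ) ×ˢ ({y} : Set ℝ) ⊆ Aᶜ := by
      rintro ⟨a, b⟩ hab hA'
      rw [mem_prod] at hab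
      have h1 := (hA hA').2
      have h2 : b = y := hab.2
      exact hy (h2 ▸ h1)
    have hc := convexOn_of_locally f hf Aᶜ _ hloc hS hSU
    have h := hc.2 (show ((x₁, y) : ℝ × ℝ) ∈ (univ : Set ℝ) ×ˢ ({y} : Set ℝ) from ⟨mem_univ _, rfl⟩)
      (show ((x₂, y) : ℝ × ℝ) ∈ (univ : Set ℝ) ×ˢ ({y} : Set ℝ) from ⟨mem_univ _, rfl⟩) hα hβ hαβ
    have e : α • ((x₁, y) : ℝ × ℝ) + β • ((x₂, y) : ℝ × ℝ) = (α * x₁ + β * x₂, y) := by
      ext
      · simp
      · simp only [Prod.snd_add, Prod.smul_snd, smul_eq_mul]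
        rw [← add_mul, hαβ, one_mul]
    rw [e] at h
    exact h
  have := hcl.closure_subset_iff.2 hsub
  rw [hN₂.closure_eq] at this
  exact this (mem_univ y)

section main

variable (f : ℝ × ℝ → ℝ) (s c R n : ℝ)

/-- the quadratic sup-convolution in the second variable along the line `y = s t + c` -/
noncomputable def k (t : ℝ) : ℝ :=
  sSup ((fun w : ℝ => f (t, w) - n * (w - s * t - c) ^ 2) '' Icc (-R) R)

variable {f s c R n}

theorem k_continuous (hf : Continuous f) : Continuous (k f s c R n) := by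
  unfold k
  apply isCompact_Icc.continuous_sSup
  have h1 : Continuous (fun p : ℝ × ℝ => f (p.1, p.2) - n * (p.2 - s * p.1 - c) ^ 2) := by fun_prop
  exact h1

theorem k_att (hf : Continuous f) (hR : 0 ≤ R) (t : ℝ) : ∃ w ∈ Icc (-R) R,
    k f s c R n t = f (t, w) - n * (w - s * t - c) ^ 2 ∧
    ∀ w' ∈ Icc (-R) R, f (t, w') - n * (w' - s * t - c) ^ 2 ≤ k f s c R n t := by
  have hc : ContinuousOn (fun w : ℝ => f (t, w) - n * (w - s * t - c) ^ 2) (Icc (-R) R) := by
    apply Continuous.continuousOn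
    fun_prop
  obtain ⟨w, hw, heq⟩ := isCompact_Icc.exists_sSup_image_eq (nonempty_Icc.2 (by linarith)) hc
  refine ⟨w, hw, heq, fun w' hw' => ?_⟩
  exact le_csSup (isCompact_Icc.bddAbove_image hc) (mem_image_of_mem _ hw')

theorem k_near (hf : Continuous f) (hR : 0 ≤ R) (M t : ℝ) (_hn : 0 < n)
    (hM : ∀ w ∈ Icc (-R) R, |f (t, w)| ≤ M) (hst : s * t + c ∈ Icc (-R) R) (w : ℝ)
    (hw : w ∈ Icc (-R) R) (hatt : k f s c R n t = f (t, w) - n * (w - s * t - c) ^ 2) :
    n * (w - s * t - c) ^ 2 ≤ 2 * M := by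
  obtain ⟨_, _, _, h2⟩ := k_att (s := s) (c := c) (n := n) hf hR t
  have h3 := h2 _ hst
  have e : s * t + c - s * t - c = 0 := by ring
  rw [e, hatt] at h3
  have h4 := abs_le.1 (hM _ hst)
  have h5 := abs_le.1 (hM _ hw)
  nlinarith

theorem k_semiconvex (hf : Continuous f) (hR : 0 ≤ R)
    (hhor : ∀ y x₁ x₂ α β : ℝ, 0 ≤ α → 0 ≤ β → α + β = 1 →
      f (α * x₁ + β * x₂, y) ≤ α * f (x₁, y) + β * f (x₂, y)) (a b : ℝ) :
    ConvexOn ℝ (Icc a b) (fun u => k f s c R n u + n * s ^ 2 * u ^ 2) := by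
  refine ⟨convex_Icc _ _, fun x _ y _ α β hα hβ hαβ => ?_⟩
  simp only [smul_eq_mul]
  obtain ⟨w, hw, heq, _⟩ := k_att (s := s) (c := c) (n := n) hf hR (α * x + β * y)
  obtain ⟨_, _, _, h1⟩ := k_att (s := s) (c := c) (n := n) hf hR x
  obtain ⟨_, _, _, h2⟩ := k_att (s := s) (c := c) (n := n) hf hR y
  have h3 := h1 w hw
  have h4 := h2 w hw
  have h5 := hhor w x y α β hα hβ hαβ
  rw [heq]
  have h6 := mul_le_mul_of_nonneg_left h3 hα
  have h7 := mul_le_mul_of_nonneg_left h4 hβ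
  have hβ' : β = 1 - α := by linarith
  subst hβ'
  nlinarith

theorem k_local (hf : Continuous f) (hR : 0 ≤ R) (N₁ N₂ : Set ℝ) (A : Set (ℝ × ℝ))
    (hA : A ⊆ N₁ ×ˢ N₂) (hloc : LocallyConvexOn f Aᶜ) (hN₁ : IsClosed N₁) (a b M : ℝ) (hn : 0 < n)
    (hM : ∀ t ∈ Icc a b, ∀ w ∈ Icc (-R) R, |f (t, w)| ≤ M) (hnM : 2 * M ≤ n)
    (hst : ∀ t ∈ Icc a b, |s * t + c| + 1 ≤ R) (t : ℝ) (ht : t ∈ Ioo a b) (htN : t ∉ N₁) :
    ∃ ε > 0, ConvexOn ℝ (Ioo (t - ε) (t + ε)) (k f s c R n) := by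
  have hopen : Ioo a b ∩ N₁ᶜ ∈ 𝓝 t :=
    (isOpen_Ioo.inter hN₁.isOpen_compl).mem_nhds ⟨ht, htN⟩
  obtain ⟨ε, hε, hball⟩ := Metric.mem_nhds_iff.1 hopen
  rw [Real.ball_eq_Ioo] at hball
  refine ⟨ε, hε, convex_Ioo _ _, fun x hx y hy α β hα hβ hαβ => ?_⟩
  simp only [smul_eq_mul]
  have hS : Convex ℝ (Ioo (t - ε) (t + ε) ×ˢ (univ : Set ℝ)) := (convex_Ioo _ _).prod convex_univ
  have hSU : Ioo (t - ε) (t + ε) ×ˢ (univ : Set ℝ) ⊆ Aᶜ := by
    rintro ⟨p, q⟩ hpq hA'
    exact (hball hpq.1).2 (hA hA').1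
  have hc := convexOn_of_locally f hf Aᶜ _ hloc hS hSU
  set t' : ℝ := α * x + β * y with ht'
  have ht'I : t' ∈ Ioo (t - ε) (t + ε) := (convex_Ioo _ _) hx hy hα hβ hαβ
  have ht'ab : t' ∈ Icc a b := Ioo_subset_Icc_self (hball ht'I).1
  have hxab : x ∈ Icc a b := Ioo_subset_Icc_self (hball hx).1
  have hyab : y ∈ Icc a b := Ioo_subset_Icc_self (hball hy).1
  obtain ⟨w, hw, heq, _⟩ := k_att (s := s) (c := c) (n := n) hf hR t'
  obtain ⟨_, _, _, h1⟩ := k_att (s := s) (c := c) (n := n) hf hR x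
  obtain ⟨_, _, _, h2⟩ := k_att (s := s) (c := c) (n := n) hf hR y
  have hstt := abs_le.1 (show |s * t' + c| ≤ R - 1 by linarith [hst t' ht'ab])
  have hstx := abs_le.1 (show |s * x + c| ≤ R - 1 by linarith [hst x hxab])
  have hsty := abs_le.1 (show |s * y + c| ≤ R - 1 by linarith [hst y hyab])
  have hnear := k_near hf hR M t' hn (hM t' ht'ab) ⟨by linarith [hstt.1], by linarith [hstt.2]⟩ w hw heq
  set u : ℝ := w - s * t' - c with hu
  have hu1 : u ^ 2 ≤ 1 := by
    have : n * u ^ 2 ≤ n * 1 := by linarith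
    exact le_of_mul_le_mul_left this hn
  have hu2 := abs_le.1 ((sq_le_one_iff_abs_le_one u).1 hu1)
  have h3 := h1 (s * x + c + u) ⟨by linarith [hstx.1, hu2.1], by linarith [hstx.2, hu2.2]⟩
  have h4 := h2 (s * y + c + u) ⟨by linarith [hsty.1, hu2.1], by linarith [hsty.2, hu2.2]⟩
  have e3 : s * x + c + u - s * x - c = u := by ring
  have e4 : s * y + c + u - s * y - c = u := by ring
  rw [e3] at h3
  rw [e4] at h4
  have h5 := hc.2 (show ((x, s * x + c + u) : ℝ × ℝ) ∈ Ioo (t - ε) (t + ε) ×ˢ (univ : Set ℝ) from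
      ⟨hx, mem_univ _⟩)
    (show ((y, s * y + c + u) : ℝ × ℝ) ∈ Ioo (t - ε) (t + ε) ×ˢ (univ : Set ℝ) from
      ⟨hy, mem_univ _⟩) hα hβ hαβ
  have e5 : α • ((x, s * x + c + u) : ℝ × ℝ) + β • ((y, s * y + c + u) : ℝ × ℝ) = (t', w) := by
    ext
    · simp [ht']
    · simp only [Prod.snd_add, Prod.smul_snd, smul_eq_mul]
      have hw' : w = s * t' + c + u := by rw [hu]; ring
      rw [hw', ht']
      have hα' : α = 1 - β := by linarith
      subst hα'
      ring
  rw [e5] at h5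
  simp only [smul_eq_mul] at h5
  rw [heq]
  have h6 := mul_le_mul_of_nonneg_left h3 hα
  have h7 := mul_le_mul_of_nonneg_left h4 hβ
  have h8 : n * u ^ 2 = α * (n * u ^ 2) + β * (n * u ^ 2) := by rw [← add_mul, hαβ, one_mul]
  linarith

end main

/-- convexity along non-vertical lines -/
theorem slanted (f : ℝ × ℝ → ℝ) (hf : Continuous f) (A : Set (ℝ × ℝ)) (N₁ N₂ : Set ℝ)
    (hA : A ⊆ N₁ ×ˢ N₂) (hN₁ : IsClosed N₁) (hN₁0 : volume N₁ = 0) (hN₂ : Dense N₂ᶜ)
    (hloc : LocallyConvexOn f Aᶜ) (a b s c t : ℝ) (ht : t ∈ Ioo a b) :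
    (b - a) * f (t, s * t + c) ≤ (b - t) * f (a, s * a + c) + (t - a) * f (b, s * b + c) := by
  have hab : a < b := ht.1.trans ht.2
  -- the compact window
  obtain ⟨R₀, hR₀⟩ := isCompact_Icc.exists_bound_of_continuousOn (s := Icc a b)
    (f := fun t : ℝ => s * t + c) (by fun_prop)
  set R : ℝ := R₀ + 1 with hRd
  have hst : ∀ t ∈ Icc a b, |s * t + c| + 1 ≤ R := fun t ht => by
    have := hR₀ t ht
    rw [Real.norm_eq_abs] at this
    linarith
  have hR : 0 ≤ R := by
    have := hst a ⟨le_rfl, hab.le⟩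
    have := abs_nonneg (s * a + c)
    linarith
  obtain ⟨M₀, hM₀⟩ := (isCompact_Icc.prod isCompact_Icc).exists_bound_of_continuousOn
    (s := Icc a b ×ˢ Icc (-R) R) (f := f) hf.continuousOn
  set M : ℝ := max M₀ 0 with hMd
  have hM0 : 0 ≤ M := le_max_right _ _
  have hM : ∀ t ∈ Icc a b, ∀ w ∈ Icc (-R) R, |f (t, w)| ≤ M := fun t ht w hw => by
    have h1 := hM₀ (t, w) ⟨ht, hw⟩
    rw [Real.norm_eq_abs] at h1
    exact h1.trans (le_max_left _ _)
  have hhor := horizontal f hf A N₁ N₂ hA hN₂ hloc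
  -- the estimate up to e
  have hmain : ∀ e : ℝ, 0 < e → (b - a) * f (t, s * t + c) ≤
      (b - t) * (f (a, s * a + c) + e) + (t - a) * (f (b, s * b + c) + e) := by
    intro e he
    have hcont : ∀ x : ℝ, ∃ ρ > 0, ∀ w, |w - (s * x + c)| < ρ → f (x, w) < f (x, s * x + c) + e := by
      intro x
      have h1 : Continuous (fun w : ℝ => f (x, w)) := by fun_prop
      have h2 := (Metric.continuous_iff.1 h1) (s * x + c) e he
      obtain ⟨ρ, hρ, h3⟩ := h2
      refine ⟨ρ, hρ, fun w hw => ?_⟩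
      have h4 := h3 w (by rw [Real.dist_eq]; exact hw)
      rw [Real.dist_eq, abs_lt] at h4
      linarith [h4.2]
    obtain ⟨ρ₁, hρ₁, hc₁⟩ := hcont a
    obtain ⟨ρ₂, hρ₂, hc₂⟩ := hcont b
    set n : ℝ := 2 * M + 1 + 2 * M / ρ₁ ^ 2 + 2 * M / ρ₂ ^ 2 with hn
    have hp1 : 0 ≤ 2 * M / ρ₁ ^ 2 := by positivity
    have hp2 : 0 ≤ 2 * M / ρ₂ ^ 2 := by positivity
    have hn0 : 0 < n := by linarith
    have hnM : 2 * M ≤ n := by linarith
    have hn1 : 2 * M < n * ρ₁ ^ 2 := by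
      have h1 : 2 * M / ρ₁ ^ 2 * ρ₁ ^ 2 = 2 * M := by field_simp
      have h2 : 2 * M / ρ₁ ^ 2 < n := by linarith
      have h3 := mul_lt_mul_of_pos_right h2 (show 0 < ρ₁ ^ 2 by positivity)
      linarith
    have hn2 : 2 * M < n * ρ₂ ^ 2 := by
      have h1 : 2 * M / ρ₂ ^ 2 * ρ₂ ^ 2 = 2 * M := by field_simp
      have h2 : 2 * M / ρ₂ ^ 2 < n := by linarith
      have h3 := mul_lt_mul_of_pos_right h2 (show 0 < ρ₂ ^ 2 by positivity)
      linarith
    have hchord := chord_of_semiconvex a b hab (k f s c R n) (k_continuous hf).continuousOn N₁ hN₁0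
      (n * s ^ 2) (by positivity) (k_semiconvex hf hR hhor a b)
      (fun t ht htN => k_local hf hR N₁ N₂ A hA hloc hN₁ a b M hn0 hM hnM hst t ht htN) t ht
    -- lower bound at t
    have hmem : ∀ x ∈ Icc a b, s * x + c ∈ Icc (-R) R := fun x hx => by
      have := abs_le.1 (show |s * x + c| ≤ R - 1 by linarith [hst x hx])
      exact ⟨by linarith [this.1], by linarith [this.2]⟩
    obtain ⟨_, _, _, h1⟩ := k_att (s := s) (c := c) (n := n) hf hR t
    have h2 := h1 _ (hmem t ⟨ht.1.le, ht.2.le⟩)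
    have e1 : s * t + c - s * t - c = 0 := by ring
    rw [e1] at h2
    -- upper bounds at a and b
    have hup : ∀ x ∈ Icc a b, ∀ ρ : ℝ, 0 < ρ → 2 * M < n * ρ ^ 2 →
        (∀ w, |w - (s * x + c)| < ρ → f (x, w) < f (x, s * x + c) + e) →
        k f s c R n x ≤ f (x, s * x + c) + e := by
      intro x hx ρ hρ hρn hc
      obtain ⟨w, hw, heq, _⟩ := k_att (s := s) (c := c) (n := n) hf hR x
      have h3 := k_near hf hR M x hn0 (hM x hx) (hmem x hx) w hw heq
      have h4 : n * (w - s * x - c) ^ 2 < n * ρ ^ 2 := lt_of_le_of_lt h3 hρn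
      have h5 : (w - s * x - c) ^ 2 < ρ ^ 2 := lt_of_mul_lt_mul_left h4 hn0.le
      have h6 : |w - s * x - c| < ρ := by
        rw [← abs_of_pos hρ]; exact sq_lt_sq.1 h5
      have h7 := hc w (by rw [← sub_sub]; exact h6)
      have h8 : 0 ≤ n * (w - s * x - c) ^ 2 := by positivity
      rw [heq]
      linarith
    have h3 := hup a ⟨le_rfl, hab.le⟩ ρ₁ hρ₁ hn1 hc₁
    have h4 := hup b ⟨hab.le, le_rfl⟩ ρ₂ hρ₂ hn2 hc₂
    have h5 := mul_le_mul_of_nonneg_left h3 (show 0 ≤ b - t by linarith [ht.2])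
    have h6 := mul_le_mul_of_nonneg_left h4 (show 0 ≤ t - a by linarith [ht.1])
    have h7 : (b - a) * f (t, s * t + c) ≤ (b - a) * k f s c R n t :=
      mul_le_mul_of_nonneg_left (by linarith) (by linarith)
    linarith
  by_contra hcon
  push Not at hcon
  set Δ : ℝ := (b - a) * f (t, s * t + c) - ((b - t) * f (a, s * a + c) + (t - a) * f (b, s * b + c)) with hΔ
  have hΔ0 : 0 < Δ := by linarith
  have hba : 0 < b - a := by linarith
  have h := hmain (Δ / (2 * (b - a))) (by positivity)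
  have e2 : (b - t) * (f (a, s * a + c) + Δ / (2 * (b - a))) +
      (t - a) * (f (b, s * b + c) + Δ / (2 * (b - a))) =
      ((b - t) * f (a, s * a + c) + (t - a) * f (b, s * b + c)) + Δ / 2 := by
    field_simp
    ring
  rw [e2] at h
  linarith

/-- A closed set contained in a product `N₁ × N₂` with `N₁` closed of Lebesgue measure zero and
`N₂` with dense complement is `c`-removable. -/
theorem removable_of_subset_prod (A : Set (ℝ × ℝ)) (N₁ N₂ : Set ℝ) (hA : A ⊆ N₁ ×ˢ N₂)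
    (hN₁ : IsClosed N₁) (hN₁0 : volume N₁ = 0) (hN₂ : Dense N₂ᶜ) : CRemovable A := by
  intro f hf hloc
  have hsl := slanted f hf A N₁ N₂ hA hN₁ hN₁0 hN₂ hloc
  refine ⟨convex_univ, fun z _ w _ α β hα hβ hαβ => ?_⟩
  -- the case of distinct abscissas
  have hcase : ∀ x₁ x₂ y₁ y₂ : ℝ, x₁ < x₂ → ∀ β : ℝ, 0 ≤ β → β ≤ 1 →
      f ((1 - β) * x₁ + β * x₂, (1 - β) * y₁ + β * y₂) ≤ (1 - β) * f (x₁, y₁) + β * f (x₂, y₂) := by
    intro x₁ x₂ y₁ y₂ hx β hβ0 hβ1
    rcases eq_or_lt_of_le hβ0 with h0 | h0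
    · rw [← h0]; simp
    rcases eq_or_lt_of_le hβ1 with h1 | h1
    · rw [h1]; simp
    set s : ℝ := (y₂ - y₁) / (x₂ - x₁) with hs
    have hx0 : 0 < x₂ - x₁ := by linarith
    have hsx : s * (x₂ - x₁) = y₂ - y₁ := by rw [hs]; field_simp
    have ht : (1 - β) * x₁ + β * x₂ ∈ Ioo x₁ x₂ := by constructor <;> nlinarith
    have h := hsl x₁ x₂ s (y₁ - s * x₁) ((1 - β) * x₁ + β * x₂) ht
    have e1 : s * ((1 - β) * x₁ + β * x₂) + (y₁ - s * x₁) = (1 - β) * y₁ + β * y₂ := by
      have : s * ((1 - β) * x₁ + β * x₂) + (y₁ - s * x₁) = y₁ + β * (s * (x₂ - x₁)) := by ring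
      rw [this, hsx]; ring
    have e2 : s * x₁ + (y₁ - s * x₁) = y₁ := by ring
    have e3 : s * x₂ + (y₁ - s * x₁) = y₂ := by linarith
    rw [e1, e2, e3] at h
    have h' : (x₂ - x₁) * f ((1 - β) * x₁ + β * x₂, (1 - β) * y₁ + β * y₂) ≤
        (x₂ - x₁) * ((1 - β) * f (x₁, y₁) + β * f (x₂, y₂)) := by
      calc _ ≤ _ := h
        _ = _ := by ring
    exact le_of_mul_le_mul_left h' hx0
  obtain ⟨x₁, y₁⟩ := z
  obtain ⟨x₂, y₂⟩ := w
  have hα' : α = 1 - β := by linarith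
  subst hα'
  have e : (1 - β) • ((x₁, y₁) : ℝ × ℝ) + β • ((x₂, y₂) : ℝ × ℝ) =
      ((1 - β) * x₁ + β * x₂, (1 - β) * y₁ + β * y₂) := rfl
  rw [e]
  simp only [smul_eq_mul]
  rcases lt_trichotomy x₁ x₂ with hlt | heq | hgt
  · exact hcase x₁ x₂ y₁ y₂ hlt β hβ (by linarith)
  · -- vertical lines, by continuity
    subst heq
    have hlim1 : Tendsto (fun d : ℝ => f ((1 - β) * x₁ + β * (x₁ + d), (1 - β) * y₁ + β * y₂))
        (𝓝[>] 0) (𝓝 (f ((1 - β) * x₁ + β * x₁, (1 - β) * y₁ + β * y₂))) := by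
      have hc : Continuous (fun d : ℝ => f ((1 - β) * x₁ + β * (x₁ + d), (1 - β) * y₁ + β * y₂)) := by
        fun_prop
      have := hc.tendsto 0
      rw [add_zero] at this
      exact this.mono_left nhdsWithin_le_nhds
    have hlim2 : Tendsto (fun d : ℝ => (1 - β) * f (x₁, y₁) + β * f (x₁ + d, y₂))
        (𝓝[>] 0) (𝓝 ((1 - β) * f (x₁, y₁) + β * f (x₁, y₂))) := by
      have hc : Continuous (fun d : ℝ => (1 - β) * f (x₁, y₁) + β * f (x₁ + d, y₂)) := by
        fun_prop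
      have := hc.tendsto 0
      rw [add_zero] at this
      exact this.mono_left nhdsWithin_le_nhds
    refine le_of_tendsto_of_tendsto hlim1 hlim2 ?_
    filter_upwards [self_mem_nhdsWithin] with d hd
    rw [mem_Ioi] at hd
    exact hcase x₁ (x₁ + d) y₁ y₂ (by linarith) β hβ (by linarith)
  · have h := hcase x₂ x₁ y₂ y₁ hgt (1 - β) (by linarith) (by linarith)
    have e1 : (1 - (1 - β)) * x₂ + (1 - β) * x₁ = (1 - β) * x₁ + β * x₂ := by ring
    have e2 : (1 - (1 - β)) * y₂ + (1 - β) * y₁ = (1 - β) * y₁ + β * y₂ := by ring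
    rw [e1, e2] at h
    linarith

theorem volume_homothety (c : ℝ) (S : Set ℝ) :
    volume ((AffineMap.homothety c (1 / 3 : ℝ)) '' S) = ENNReal.ofReal (1 / 3) * volume S := by
  rw [Measure.addHaar_image_homothety]
  simp

theorem volume_cantorSet : volume cantorSet = 0 := by
  have hfin : volume cantorSet ≠ ⊤ := isCompact_cantorSet.measure_lt_top.ne
  have i1 : (fun x : ℝ => x / 3) '' cantorSet = (AffineMap.homothety (0 : ℝ) (1 / 3 : ℝ)) '' cantorSet := by
    congr 1; funext x; rw [AffineMap.homothety_apply]; simp; ring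
  have i2 : (fun x : ℝ => (2 + x) / 3) '' cantorSet =
      (AffineMap.homothety (1 : ℝ) (1 / 3 : ℝ)) '' cantorSet := by
    congr 1; funext x; rw [AffineMap.homothety_apply]; simp; ring
  have h1 : volume cantorSet ≤ ENNReal.ofReal (1 / 3) * volume cantorSet +
      ENNReal.ofReal (1 / 3) * volume cantorSet := by
    conv_lhs => rw [cantorSet_eq_union_halves]
    refine (measure_union_le _ _).trans ?_
    rw [i1, i2, volume_homothety, volume_homothety]
  set v : ℝ := (volume cantorSet).toReal with hv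
  have hvol : volume cantorSet = ENNReal.ofReal v := (ENNReal.ofReal_toReal hfin).symm
  have hv0 : 0 ≤ v := ENNReal.toReal_nonneg
  rw [hvol, ← ENNReal.ofReal_mul (by norm_num), ← ENNReal.ofReal_add (by positivity) (by positivity),
    ENNReal.ofReal_le_ofReal_iff (by positivity)] at h1
  rw [hvol, ENNReal.ofReal_eq_zero]
  linarith

/-- The Cantor dust is `c`-removable; more generally so is every subset of `N₁ × N₂`, where `N₁` is
closed of measure zero and `N₂` has dense complement. -/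
theorem result : CRemovable (cantorSet ×ˢ cantorSet) ∧
    ∀ (A : Set (ℝ × ℝ)) (N₁ N₂ : Set ℝ), A ⊆ N₁ ×ˢ N₂ → IsClosed N₁ → volume N₁ = 0 →
      Dense N₂ᶜ → CRemovable A := by
  refine ⟨removable_of_subset_prod _ _ _ subset_rfl isClosed_cantorSet volume_cantorSet ?_,
    removable_of_subset_prod⟩
  rw [← interior_eq_empty_iff_dense_compl]
  exact Measure.interior_eq_empty_of_null volume_cantorSet

end Pool.Agent.Results.MP_95ad2c_an.CantorDustRemovable
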